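import Pool.Agent.Helper60.SB.Defs2

/-!
Module S of MP_7fc85e_an: sampling a smooth building block at the centres of dyadic cells.
-/

open Finset MeasureTheory
open scoped ENNReal Real

namespace Pool.Agent.Helper96.SB

open Pool.Agent.Helper60.SB

/-- reindexing of a dyadic cell -/
theorem sum_cell {T s c : ℕ} (hsT : s ≤ T) (hc : c < 2 ^ s) (F : Fin (2 ^ T) → ℝ) (G : ℕ → ℝ)
    (h : ∀ y, y < 2 ^ (T - s) → ∀ hy : c * 2 ^ (T - s) + y < 2 ^ T,
      F ⟨c * 2 ^ (T - s) + y, hy⟩ = G y) :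
    ∑ x ∈ univ.filter (fun x => pre T s x = c), F x = ∑ y ∈ range (2 ^ (T - s)), G y := by
  have hpow : 2 ^ s * 2 ^ (T - s) = 2 ^ T := by rw [← pow_add]; congr 1; omega
  have hlt : ∀ y, y < 2 ^ (T - s) → c * 2 ^ (T - s) + y < 2 ^ T := by
    intro y hy
    have h1 : (c + 1) * 2 ^ (T - s) ≤ 2 ^ s * 2 ^ (T - s) := Nat.mul_le_mul_right _ hc
    rw [hpow] at h1
    linarith [h1, Nat.add_mul c 1 (2 ^ (T - s))]
  symm
  refine Finset.sum_bij (fun y hy => ⟨c * 2 ^ (T - s) + y, hlt y (mem_range.mp hy)⟩) ?_ ?_ ?_ ?_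
  · intro y hy
    have hy' := mem_range.mp hy
    rw [mem_filter]
    refine ⟨mem_univ _, ?_⟩
    show (c * 2 ^ (T - s) + y) / 2 ^ (T - s) = c
    rw [mul_comm, Nat.mul_add_div (by positivity), Nat.div_eq_of_lt hy', add_zero]
  · intro y hy z hz hyz
    have := congrArg Fin.val hyz
    simp only at this
    omega
  · intro x hx
    rw [mem_filter] at hx
    have hx : x.val / 2 ^ (T - s) = c := hx.2
    refine ⟨x.val % 2 ^ (T - s), mem_range.mpr (Nat.mod_lt _ (by positivity)), ?_⟩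
    apply Fin.ext
    simp only
    rw [← hx, mul_comm]
    exact Nat.div_add_mod _ _
  · intro y hy
    exact (h y (mem_range.mp hy) _).symm

theorem pre_cell {T s c y : ℕ} (hy : y < 2 ^ (T - s)) (h : c * 2 ^ (T - s) + y < 2 ^ T) :
    pre T s ⟨c * 2 ^ (T - s) + y, h⟩ = c := by
  simp only [pre]
  rw [mul_comm, Nat.mul_add_div (by positivity), Nat.div_eq_of_lt hy, add_zero]

theorem two_pow_pt {T s : ℕ} (hsT : s ≤ T) (x : Fin (2 ^ T)) :
    (2 : ℝ) ^ s * pt T x = ((x : ℝ) + 1 / 2) / 2 ^ (T - s) := by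
  have h : (2 : ℝ) ^ T = 2 ^ s * 2 ^ (T - s) := by rw [← pow_add]; congr 1; omega
  rw [pt, h]
  have h1 : (2 : ℝ) ^ s ≠ 0 := by positivity
  have h2 : (2 : ℝ) ^ (T - s) ≠ 0 := by positivity
  field_simp

theorem vs_cell (u : ℝ → ℝ) {T s c y : ℕ} (hsT : s ≤ T) (hy : y < 2 ^ (T - s))
    (h : c * 2 ^ (T - s) + y < 2 ^ T) :
    vs u T s ⟨c * 2 ^ (T - s) + y, h⟩ = u (((y : ℝ) + 1 / 2) / 2 ^ (T - s)) := by
  rw [vs, pre_cell hy h, two_pow_pt hsT]
  congr 1
  have h2 : (2 : ℝ) ^ (T - s) ≠ 0 := by positivity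
  push_cast
  field_simp
  ring

theorem vs_sum_zero (u : ℝ → ℝ) (hodd : ∀ t, u (1 - t) = -u t) {T s : ℕ} (hsT : s ≤ T) {c : ℕ}
    (hc : c < 2 ^ s) : ∑ x ∈ univ.filter (fun x => pre T s x = c), vs u T s x = 0 := by
  rw [sum_cell hsT hc (vs u T s) (fun y => u (((y : ℝ) + 1 / 2) / 2 ^ (T - s)))
    (fun y hy h => vs_cell u hsT hy h)]
  have h1 := Finset.sum_range_reflect (fun y : ℕ => u (((y : ℝ) + 1 / 2) / 2 ^ (T - s)))
    (2 ^ (T - s))
  have h2 : ∑ j ∈ range (2 ^ (T - s)),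
      (fun y : ℕ => u (((y : ℝ) + 1 / 2) / 2 ^ (T - s))) (2 ^ (T - s) - 1 - j) =
      -∑ j ∈ range (2 ^ (T - s)), u (((j : ℝ) + 1 / 2) / 2 ^ (T - s)) := by
    rw [← Finset.sum_neg_distrib]
    refine Finset.sum_congr rfl fun j hj => ?_
    have hj' := mem_range.mp hj
    simp only
    rw [← hodd]
    congr 1
    have h3 : ((2 ^ (T - s) - 1 - j : ℕ) : ℝ) = 2 ^ (T - s) - 1 - j := by
      rw [Nat.cast_sub (by omega), Nat.cast_sub (Nat.one_le_two_pow)]
      push_cast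
      ring
    rw [h3]
    have h4 : (2 : ℝ) ^ (T - s) ≠ 0 := by positivity
    field_simp
    ring
  linarith [h1, h2]

theorem vs_corr (u : ℝ → ℝ) (hodd : ∀ t, u (1 - t) = -u t) (hpos : ∀ t, 1 / 2 ≤ t → 0 ≤ u t)
    (hpl : ∀ t, 7 / 12 ≤ t → t ≤ 2 / 3 → 1 / 3 ≤ u t) {T s : ℕ} (hsT : s + 5 ≤ T) {c : ℕ}
    (hc : c < 2 ^ s) :
    1 / 30 * 2 ^ (T - s) ≤
      ∑ x ∈ univ.filter (fun x => pre T s x = c), vs u T s x * hs T s x := by
  obtain ⟨H, hH⟩ : ∃ H, H = 2 ^ (T - (s + 1)) := ⟨_, rfl⟩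
  have hM : 2 ^ (T - s) = H + H := by
    rw [hH, ← two_mul, ← pow_succ']
    congr 1
    omega
  have hH16 : 16 ≤ H := by
    have : 2 ^ 4 ≤ 2 ^ (T - (s + 1)) := Nat.pow_le_pow_right (by norm_num) (by omega)
    rw [hH]
    simpa using this
  have hHpos : (0 : ℝ) < H := by exact_mod_cast (by omega : 0 < H)
  have hMr : (2 : ℝ) ^ (T - s) = H + H := by exact_mod_cast hM
  rw [sum_cell (by omega) hc (fun x => vs u T s x * hs T s x)
    (fun y => u (((y : ℝ) + 1 / 2) / 2 ^ (T - s)) * (if H ≤ y then 1 else -1)) ?_]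
  · rw [hM, hMr, Finset.sum_range_add]
    have h1 : ∑ x ∈ range H, u (((x : ℝ) + 1 / 2) / (H + H)) * (if H ≤ x then (1 : ℝ) else -1) =
        ∑ i ∈ range H, u (((H : ℝ) + i + 1 / 2) / (H + H)) := by
      rw [← Finset.sum_range_reflect]
      refine Finset.sum_congr rfl fun i hi => ?_
      have hi' := mem_range.mp hi
      rw [if_neg (by omega), mul_neg_one, ← hodd]
      congr 1
      have h3 : ((H - 1 - i : ℕ) : ℝ) = H - 1 - i := by
        rw [Nat.cast_sub (by omega), Nat.cast_sub (by omega)]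
        push_cast
        ring
      rw [h3]
      field_simp
      ring
    have h2 : ∑ x ∈ range H, u ((((H + x : ℕ) : ℝ) + 1 / 2) / (H + H)) *
        (if H ≤ H + x then (1 : ℝ) else -1) =
        ∑ i ∈ range H, u (((H : ℝ) + i + 1 / 2) / (H + H)) := by
      refine Finset.sum_congr rfl fun i hi => ?_
      rw [if_pos (by omega), mul_one]
      push_cast
      rfl
    rw [h1, h2]
    have h3 : (H : ℝ) / 30 ≤ ∑ i ∈ range H, u (((H : ℝ) + i + 1 / 2) / (H + H)) := by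
      have hsub : Icc ((H + 2) / 6) ((2 * H - 3) / 6) ⊆ range H := by
        intro i hi
        rw [mem_Icc] at hi
        rw [mem_range]
        omega
      have h4 : ∑ i ∈ Icc ((H + 2) / 6) ((2 * H - 3) / 6), (1 / 3 : ℝ) ≤
          ∑ i ∈ range H, u (((H : ℝ) + i + 1 / 2) / (H + H)) := by
        calc ∑ i ∈ Icc ((H + 2) / 6) ((2 * H - 3) / 6), (1 / 3 : ℝ)
            ≤ ∑ i ∈ Icc ((H + 2) / 6) ((2 * H - 3) / 6), u (((H : ℝ) + i + 1 / 2) / (H + H)) := by
              refine Finset.sum_le_sum fun i hi => ?_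
              rw [mem_Icc] at hi
              have h5 : H ≤ 6 * i + 3 := by omega
              have h6 : 6 * i + 3 ≤ 2 * H := by omega
              have h5' : (H : ℝ) ≤ 6 * i + 3 := by exact_mod_cast h5
              have h6' : 6 * (i : ℝ) + 3 ≤ 2 * H := by exact_mod_cast h6
              apply hpl
              · rw [le_div_iff₀ (by linarith)]
                linarith
              · rw [div_le_iff₀ (by linarith)]
                linarith
          _ ≤ _ := by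
              refine Finset.sum_le_sum_of_subset_of_nonneg hsub fun i hi _ => ?_
              apply hpos
              rw [le_div_iff₀ (by linarith)]
              have : (0 : ℝ) ≤ i := Nat.cast_nonneg i
              linarith
      have h5 : H ≤ 10 * ((2 * H - 3) / 6 + 1 - (H + 2) / 6) := by omega
      have h6 : (H : ℝ) ≤ 10 * (((2 * H - 3) / 6 + 1 - (H + 2) / 6 : ℕ) : ℝ) := by
        exact_mod_cast h5
      rw [Finset.sum_const, Nat.card_Icc, nsmul_eq_mul] at h4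
      linarith
    linarith
  · intro y hy h
    rw [vs_cell u (by omega) hy h]
    congr 1
    rw [hs]
    have h1 : (c * 2 ^ (T - s) + y) / 2 ^ (T - (s + 1)) = 2 * c + y / H := by
      rw [← hH, hM]
      have : c * (H + H) + y = H * (2 * c) + y := by ring
      rw [this, Nat.mul_add_div (by omega)]
    have h2 : y < H + H := by rw [← hM]; exact hy
    simp only
    rw [h1]
    by_cases hyH : H ≤ y
    · have h3 : y / H = 1 := by
        apply Nat.div_eq_of_lt_le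
        · omega
        · omega
      rw [h3, if_pos (by omega), if_pos hyH]
    · have h3 : y / H = 0 := Nat.div_eq_of_lt (by omega)
      rw [h3, if_neg (by omega), if_neg hyH]

theorem shp_le {e m : ℕ} (t : Fin (e + 1) → Fin m) (j : Fin (e + 2)) :
    shp e m t j ≤ (e + 2) * m := by
  rw [shp]
  refine Fin.lastCases ?_ (fun i => ?_) j
  · rw [Fin.snoc_last]
    omega
  · rw [Fin.snoc_castSucc]
    have := (t i).isLt
    nlinarith

theorem bx_pt {e m T : ℕ} (hT : (e + 2) * m ≤ T) (u : ℝ → ℝ)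
    (hsupp : ∀ t, (t ≤ 0 ∨ 1 ≤ t) → u t = 0) (R : Box e m) (x : Fin (e + 2) → Fin (2 ^ T)) :
    bx u R (fun j => pt T (x j)) = wt (vs u T) R x := by
  rw [bx, wt]
  refine Finset.prod_congr rfl fun j _ => ?_
  have hs : shp e m R.1 j ≤ T := le_trans (shp_le _ _) hT
  by_cases h : pre T (shp e m R.1 j) (x j) = R.2 j
  · rw [if_pos h, vs, h]
  · rw [if_neg h]
    apply hsupp
    rw [two_pow_pt hs]
    have h0 : (0 : ℝ) < 2 ^ (T - shp e m R.1 j) := by positivity
    rcases Nat.lt_or_gt_of_ne h with h1 | h1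
    · left
      rw [pre, Nat.div_lt_iff_lt_mul (by positivity)] at h1
      have h2 : ((x j : ℕ) : ℝ) + 1 ≤ (R.2 j : ℕ) * 2 ^ (T - shp e m R.1 j) := by
        exact_mod_cast h1
      rw [sub_nonpos, div_le_iff₀ h0]
      linarith
    · right
      have h1' : ((R.2 j : ℕ) + 1) ≤ (x j : ℕ) / 2 ^ (T - shp e m R.1 j) := h1
      rw [Nat.le_div_iff_mul_le (by positivity)] at h1'
      have h2 : (((R.2 j : ℕ) : ℝ) + 1) * 2 ^ (T - shp e m R.1 j) ≤ (x j : ℕ) := by
        exact_mod_cast h1'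
      rw [le_sub_iff_add_le, le_div_iff₀ h0]
      linarith

theorem sum_shp {e m : ℕ} (t : Fin (e + 1) → Fin m) :
    ∑ j, shp e m t j = (e + 2) * m := by
  rw [Fin.sum_univ_castSucc]
  simp only [shp, Fin.snoc_castSucc, Fin.snoc_last]
  have h : ∑ j, (t j : ℕ) ≤ (e + 1) * m := by
    calc ∑ j, (t j : ℕ) ≤ ∑ _j : Fin (e + 1), m := Finset.sum_le_sum fun j _ => (t j).isLt.le
      _ = (e + 1) * m := by simp
  have h2 : (e + 2) * m = (e + 1) * m + m := by ring
  omega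

theorem card_box' (e m : ℕ) :
    Fintype.card (Box e m) = m ^ (e + 1) * 2 ^ ((e + 2) * m) := by
  rw [Fintype.card_sigma]
  have h : ∀ t : Fin (e + 1) → Fin m,
      Fintype.card ((j : Fin (e + 2)) → Fin (2 ^ shp e m t j)) = 2 ^ ((e + 2) * m) := by
    intro t
    rw [Fintype.card_pi]
    simp only [Fintype.card_fin]
    rw [Finset.prod_pow_eq_pow_sum, sum_shp]
  simp only [h]
  simp [Fintype.card_pi]

theorem card_box (e m : ℕ) (_hm : 0 < m) :
    Fintype.card (Box e m) = m ^ (e + 1) * 2 ^ ((e + 2) * m) :=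
  card_box' e m

/-- a building block exists -/
theorem exists_block : ∃ u : ℝ → ℝ, ContDiff ℝ (⊤ : ℕ∞) u ∧ (∀ t, |u t| ≤ 1) ∧
    (∀ t, u (1 - t) = -u t) ∧ (∀ t, 1 / 2 ≤ t → 0 ≤ u t) ∧
    (∀ t, 7 / 12 ≤ t → t ≤ 2 / 3 → 1 / 3 ≤ u t) ∧
    (∀ t, (t ≤ 1 / 10 ∨ 9 / 10 ≤ t) → u t = 0) ∧ ∫ t, u t = 0 := by
  let φ : ContDiffBump (1 / 2 : ℝ) :=
    { rIn := 1 / 6, rOut := 2 / 5, rIn_pos := by norm_num, rIn_lt_rOut := by norm_num }
  have hodd : ∀ t, φ (1 - t) * Real.sin (7 * ((1 - t) - 1 / 2)) =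
      -(φ t * Real.sin (7 * (t - 1 / 2))) := by
    intro t
    have h1 : φ (1 - t) = φ t := by
      have := φ.sub (t - 1 / 2)
      rw [show (1 / 2 : ℝ) - (t - 1 / 2) = 1 - t by ring,
        show (1 / 2 : ℝ) + (t - 1 / 2) = t by ring] at this
      exact this
    rw [h1, show (7 : ℝ) * ((1 - t) - 1 / 2) = -(7 * (t - 1 / 2)) by ring, Real.sin_neg]
    ring
  have hzero : ∀ t, (t ≤ 1 / 10 ∨ 9 / 10 ≤ t) → φ t = 0 := by
    intro t ht
    apply φ.zero_of_le_dist
    show (2 / 5 : ℝ) ≤ dist t (1 / 2)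
    rw [Real.dist_eq]
    rcases ht with h | h
    · rw [abs_of_nonpos (by linarith)]
      linarith
    · rw [abs_of_nonneg (by linarith)]
      linarith
  refine ⟨fun t => φ t * Real.sin (7 * (t - 1 / 2)), ?_, ?_, hodd, ?_, ?_, ?_, ?_⟩
  · apply ContDiff.mul
    · exact φ.contDiff
    · exact Real.contDiff_sin.comp (contDiff_const.mul (contDiff_id.sub contDiff_const))
  · intro t
    rw [abs_mul, abs_of_nonneg φ.nonneg]
    exact mul_le_one₀ φ.le_one (abs_nonneg _) (Real.abs_sin_le_one _)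
  · intro t ht
    by_cases h : 9 / 10 ≤ t
    · show 0 ≤ φ t * _
      rw [hzero t (Or.inr h), zero_mul]
    · apply mul_nonneg φ.nonneg
      apply Real.sin_nonneg_of_nonneg_of_le_pi
      · linarith
      · have := Real.pi_gt_three
        linarith
  · intro t h1 h2
    have h3 : φ t = 1 := by
      apply φ.one_of_mem_closedBall
      rw [Metric.mem_closedBall, Real.dist_eq]
      show |t - 1 / 2| ≤ 1 / 6
      rw [abs_of_nonneg (by linarith)]
      linarith
    show 1 / 3 ≤ φ t * _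
    rw [h3, one_mul]
    have hpi := Real.pi_gt_three
    have hpi2 := Real.pi_lt_d2
    have h4 := Real.mul_le_sin (x := 7 * (t - 1 / 2)) (by linarith) (by linarith)
    refine le_trans ?_ h4
    have h5 : (7 / 12 : ℝ) ≤ 7 * (t - 1 / 2) := by linarith
    calc (1 / 3 : ℝ) ≤ 2 / π * (7 / 12) := by
          rw [div_mul_eq_mul_div, le_div_iff₀ Real.pi_pos]
          linarith
      _ ≤ 2 / π * (7 * (t - 1 / 2)) := by
          apply mul_le_mul_of_nonneg_left h5
          positivity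
  · intro t ht
    show φ t * _ = 0
    rw [hzero t ht, zero_mul]
  · have h1 : ∫ t, φ t * Real.sin (7 * (t - 1 / 2)) =
        ∫ t, φ (1 - t) * Real.sin (7 * ((1 - t) - 1 / 2)) :=
      (integral_sub_left_eq_self (fun t => φ t * Real.sin (7 * (t - 1 / 2))) volume 1).symm
    have h2 : ∫ t, φ (1 - t) * Real.sin (7 * ((1 - t) - 1 / 2)) =
        -∫ t, φ t * Real.sin (7 * (t - 1 / 2)) := by
      rw [← integral_neg]
      exact integral_congr_ae (Filter.Eventually.of_forall hodd)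
    linarith

/-- continuous version of the core theorem: few sign patterns give functions that stay close to a
given function on the open unit cube -/
theorem core_cont (hcore : ∀ (e : ℕ) (cv ca : ℝ), 0 < cv → 0 < ca →
    ∃ c > 0, ∃ m₀ : ℕ, ∀ m ≥ m₀, ∀ T : ℕ, (e + 2) * m < T →
      ∀ v : ℕ → Fin (2 ^ T) → ℝ, (∀ s x, |v s x| ≤ 1) →
      (∀ s ≤ (e + 2) * m, ∀ c' < 2 ^ s,
        ∑ x ∈ univ.filter (fun x => pre T s x = c'), v s x = 0) →
      (∀ s ≤ (e + 2) * m, ∀ c' < 2 ^ s, cv * 2 ^ (T - s) ≤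
        ∑ x ∈ univ.filter (fun x => pre T s x = c'), v s x * hs T s x) →
      ∀ a : Box e m → ℝ, (∀ R, 0 ≤ a R) → (∀ R, a R ≤ 1) →
      ca * Fintype.card (Box e m) ≤ ∑ R, a R →
      ∀ g : (Fin (e + 2) → Fin (2 ^ T)) → ℝ,
        ((univ.filter fun α : Box e m → Bool =>
            ∀ x, |∑ R, a R * sg (α R) * wt v R x - g x| ≤
              c * (m : ℝ) ^ (((e : ℝ) + 2) / 2)).card : ℝ) ≤
          Real.exp (-c * Fintype.card (Box e m)) * 2 ^ Fintype.card (Box e m))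
    (e : ℕ) (u : ℝ → ℝ) (hu1 : ∀ t, |u t| ≤ 1) (hodd : ∀ t, u (1 - t) = -u t)
    (hpos : ∀ t, 1 / 2 ≤ t → 0 ≤ u t) (hpl : ∀ t, 7 / 12 ≤ t → t ≤ 2 / 3 → 1 / 3 ≤ u t)
    (hsupp : ∀ t, (t ≤ 0 ∨ 1 ≤ t) → u t = 0) (ca : ℝ) (hca : 0 < ca) :
    ∃ c > 0, ∃ m₀ : ℕ, ∀ m ≥ m₀,
      ∀ a : Box e m → ℝ, (∀ R, 0 ≤ a R) → (∀ R, a R ≤ 1) →
      ca * Fintype.card (Box e m) ≤ ∑ R, a R →
      ∀ g : (Fin (e + 2) → ℝ) → ℝ,
        ((univ.filter fun α : Box e m → Bool =>
            ∀ x : Fin (e + 2) → Fin (2 ^ ((e + 2) * m + 5)),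
              |∑ R, a R * sg (α R) * bx u R (fun j => pt ((e + 2) * m + 5) (x j)) -
                g (fun j => pt ((e + 2) * m + 5) (x j))| ≤
              c * (m : ℝ) ^ (((e : ℝ) + 2) / 2)).card : ℝ) ≤
          Real.exp (-c * Fintype.card (Box e m)) * 2 ^ Fintype.card (Box e m) := by
  obtain ⟨c, hc, m₀, H⟩ := hcore e (1 / 30) ca (by norm_num) hca
  refine ⟨c, hc, m₀, fun m hm a ha0 ha1 ha g => ?_⟩
  have key := H m hm ((e + 2) * m + 5) (by omega) (vs u ((e + 2) * m + 5)) (fun s x => hu1 _)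
    (fun s hs c' hc' => vs_sum_zero u hodd (by omega) hc')
    (fun s hs c' hc' => vs_corr u hodd hpos hpl (by omega) hc')
    a ha0 ha1 ha (fun x => g (fun j => pt ((e + 2) * m + 5) (x j)))
  simp only [bx_pt (le_add_right (le_refl ((e + 2) * m))) u hsupp]
  exact key

end Pool.Agent.Helper96.SB
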